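import Pool.Agent.Lib.MP_32aa7d_gt.Seq

/-!
The case in which the point `e` has the diagonal property: then the space is first countable.
-/

namespace Pool.Agent.MP_32aa7d_gt

open Set Filter Topology

universe u

variable {G : Type u} [TopologicalSpace G]

/-- The diagonal property at `e` (property alpha-four). -/
def AlphaFour (e : G) : Prop :=
  ∀ x : ℕ → ℕ → G, (∀ n, Tendsto (x n) atTop (𝓝 e)) →
    ∃ n m : ℕ → ℕ, StrictMono n ∧ Tendsto (fun k => x (n k) (m k)) atTop (𝓝 e)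

namespace Ops

variable (o : Ops G)

include o in
theorem frechet [SequentialSpace G] (h4 : AlphaFour o.e) (A : Set G) (a : G)
    (ha : a ∈ closure A) : ∃ z : ℕ → G, (∀ k, z k ∈ A) ∧ Tendsto z atTop (𝓝 a) := by
  let A' : Set G := {y | ∃ z : ℕ → G, (∀ k, z k ∈ A) ∧ Tendsto z atTop (𝓝 y)}
  have hAA' : A ⊆ A' := fun y hy => ⟨fun _ => y, fun _ => hy, tendsto_const_nhds⟩
  have hcl : IsClosed A' := by
    refine IsSeqClosed.isClosed ?_
    intro y b hy hyb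
    choose z hz1 hz2 using hy
    have h1 : ∀ n, Tendsto (fun m => o.q (y n) (z n m)) atTop (𝓝 o.e) := by
      intro n
      have := o.tendsto_q (tendsto_const_nhds (x := y n) (f := atTop (α := ℕ))) (hz2 n)
      rwa [o.qxx] at this
    obtain ⟨n, m, hn, hnm⟩ := h4 (fun n m => o.q (y n) (z n m)) h1
    refine ⟨fun k => z (n k) (m k), fun k => hz1 _ _, ?_⟩
    have h2 := o.tendsto_p (hyb.comp hn.tendsto_atTop) hnm
    rw [o.xe] at h2
    simpa only [Function.comp, o.pq] using h2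
  exact closure_minimal hAA' hcl ha

end Ops

omit [TopologicalSpace G] in
/-- closing-off lemma -/
theorem closing_off {P : Set (Set G)} (hP : PointCountable P) (Φ : Set (Set G) → Set G)
    (hΦ : ∀ F, (Φ F).Countable) :
    ∃ M : Set G, M.Countable ∧
      ∀ F : Set (Set G), F.Finite → F ⊆ {A | A ∈ P ∧ (A ∩ M).Nonempty} → Φ F ⊆ M := by
  let step : Set G → Set G := fun M =>
    M ∪ ⋃ F ∈ {F : Set (Set G) | F.Finite ∧ F ⊆ {A | A ∈ P ∧ (A ∩ M).Nonempty}}, Φ F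
  let M : ℕ → Set G := fun n => Nat.rec ∅ (fun _ M => step M) n
  have hM0 : M 0 = ∅ := rfl
  have hMs : ∀ n, M (n + 1) = step (M n) := fun n => rfl
  have hMc : ∀ n, (M n).Countable := by
    intro n
    induction n with
    | zero => rw [hM0]; exact countable_empty
    | succ n ih =>
      rw [hMs]
      refine ih.union (Countable.biUnion ?_ fun F _ => hΦ F)
      exact countable_ofPred_finite_subset (hP.countable_meeting ih)
  have hMmono : Monotone M := monotone_nat_of_le_succ fun n => by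
    rw [hMs]; exact subset_union_left
  refine ⟨⋃ n, M n, countable_iUnion hMc, ?_⟩
  intro F hF hFM
  have h1 : ∀ A ∈ F, ∃ n, (A ∩ M n).Nonempty := by
    intro A hA
    obtain ⟨x, hx1, hx2⟩ := (hFM hA).2
    obtain ⟨n, hn⟩ := mem_iUnion.1 hx2
    exact ⟨n, x, hx1, hn⟩
  choose! N hN using h1
  obtain ⟨K, hK⟩ : ∃ K, ∀ A ∈ F, N A ≤ K := by
    obtain ⟨K, hK⟩ := (hF.image N).bddAbove
    exact ⟨K, fun A hA => hK ⟨A, hA, rfl⟩⟩
  have h2 : F ⊆ {A | A ∈ P ∧ (A ∩ M K).Nonempty} := by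
    intro A hA
    refine ⟨(hFM hA).1, (hN A hA).mono (inter_subset_inter_right _ (hMmono (hK A hA)))⟩
  refine Subset.trans ?_ (subset_iUnion M (K + 1))
  rw [hMs]
  refine Subset.trans ?_ subset_union_right
  exact subset_biUnion_of_mem (u := fun F => Φ F) (show F ∈ _ from ⟨hF, h2⟩)

/-- a Fréchet point with the diagonal property and a point-countable capturing family is a point
of countable character -/
theorem isCountablyGenerated_of_alphaFour {P : Set (Set G)} (hP : PointCountable P)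
    (hC : Captures P) (e : G) (h4 : AlphaFour e)
    (hF : ∀ A : Set G, e ∈ closure A → ∃ z : ℕ → G, (∀ k, z k ∈ A) ∧ Tendsto z atTop (𝓝 e)) :
    (𝓝 e).IsCountablyGenerated := by
  classical
  -- for each `F` with `e ∈ closure (⋃ F)ᶜ` choose a sequence
  have h1 : ∀ F : Set (Set G), ∃ Z : Set G, Z.Countable ∧
      (e ∈ closure (⋃₀ F)ᶜ → ∃ z : ℕ → G, (∀ k, z k ∈ (⋃₀ F)ᶜ ∩ Z) ∧
        Tendsto z atTop (𝓝 e)) := by
    intro F
    by_cases h : e ∈ closure (⋃₀ F)ᶜ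
    · obtain ⟨z, hz1, hz2⟩ := hF _ h
      exact ⟨range z, countable_range z, fun _ => ⟨z, fun k => ⟨hz1 k, k, rfl⟩, hz2⟩⟩
    · exact ⟨∅, countable_empty, fun h' => absurd h' h⟩
  choose Φ hΦ1 hΦ2 using h1
  obtain ⟨M, hM, hMΦ⟩ := closing_off hP Φ hΦ1
  let PM : Set (Set G) := {A | A ∈ P ∧ (A ∩ M).Nonempty}
  have hPM : PM.Countable := hP.countable_meeting hM
  -- the countable family
  let 𝓕 : Set (Set (Set G)) := {F | F.Finite ∧ F ⊆ PM}
  have h𝓕 : 𝓕.Countable := countable_ofPred_finite_subset hPM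
  have key : ∀ U : Set G, IsOpen U → e ∈ U → ∃ F ∈ 𝓕, ⋃₀ F ∈ 𝓝 e ∧ ⋃₀ F ⊆ U := by
    intro U hU heU
    by_contra hcon
    push Not at hcon
    obtain ⟨A, hA⟩ := hP.exists_enum hM
    -- the finite families
    let F : ℕ → Set (Set G) := fun n =>
      {B | B ∈ PM ∧ B ⊆ U ∧ ∃ k < n, A k = B}
    have hFfin : ∀ n, (F n).Finite := by
      intro n
      refine ((Set.finite_Iio n).image A).subset ?_
      rintro B ⟨-, -, k, hk, rfl⟩
      exact ⟨k, hk, rfl⟩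
    have hFPM : ∀ n, F n ⊆ PM := fun n B hB => hB.1
    have hFU : ∀ n, ⋃₀ F n ⊆ U := fun n => sUnion_subset fun B hB => hB.2.1
    have h2 : ∀ n, ∃ z : ℕ → G, (∀ k, z k ∈ (⋃₀ F n)ᶜ ∩ M) ∧ Tendsto z atTop (𝓝 e) := by
      intro n
      have h3 : e ∈ closure (⋃₀ F n)ᶜ := by
        rw [closure_compl]
        intro h3
        exact hcon (F n) ⟨hFfin n, hFPM n⟩ (mem_interior_iff_mem_nhds.1 h3) (hFU n)
      obtain ⟨z, hz1, hz2⟩ := hΦ2 (F n) h3
      exact ⟨z, fun k => ⟨(hz1 k).1, hMΦ (F n) (hFfin n) (hFPM n) (hz1 k).2⟩, hz2⟩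
    choose z hz1 hz2 using h2
    obtain ⟨n, m, hn, hnm⟩ := h4 z hz2
    obtain ⟨B, hB, hBU, hf⟩ := hC _ e U hnm hU heU
    obtain ⟨k0, hk0⟩ := hf.exists
    have hBM : (B ∩ M).Nonempty := ⟨_, hk0, (hz1 _ _).2⟩
    obtain ⟨i, hi⟩ := hA B hB hBM
    have h5 : ∀ᶠ k in atTop, i < n k := hn.tendsto_atTop.eventually_gt_atTop i
    obtain ⟨k, hk1, hk2⟩ := (hf.and_eventually h5).exists
    refine (hz1 (n k) (m k)).1 ?_
    exact ⟨B, ⟨⟨hB, hBM⟩, hBU, i, hk2, hi⟩, hk1⟩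
  -- conclusion
  have hbasis : (𝓝 e).HasBasis (fun F : Set (Set G) => F ∈ 𝓕 ∧ ⋃₀ F ∈ 𝓝 e) (fun F => ⋃₀ F) := by
    refine ⟨fun t => ⟨fun ht => ?_, ?_⟩⟩
    · obtain ⟨F, hF1, hF2, hF3⟩ := key (interior t) isOpen_interior
        (mem_interior_iff_mem_nhds.2 ht)
      exact ⟨F, ⟨hF1, hF2⟩, hF3.trans interior_subset⟩
    · rintro ⟨F, ⟨hF1, hF2⟩, hF3⟩
      exact mem_of_superset hF2 hF3
  have hc : {F : Set (Set G) | F ∈ 𝓕 ∧ ⋃₀ F ∈ 𝓝 e}.Countable := h𝓕.mono fun F hF => hF.1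
  exact HasCountableBasis.isCountablyGenerated ⟨hbasis, hc⟩

end Pool.Agent.MP_32aa7d_gt
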