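import Pool.Agent.Lib.MP_32aa7d_gt.Fan

/-!
The barrier lemma: in a sequential rectifiable space with a point-countable family of relatively
sequentially compact sets which captures convergent sequences, countably many relatively
sequentially compact sets meet every sequence converging to `e`.
-/

namespace Pool.Agent.MP_32aa7d_gt

open Set Filter Topology

universe u

theorem exists_omega1_type : ∃ (ι : Type) (_ : LinearOrder ι), WellFoundedLT ι ∧
    Uncountable ι ∧ ∀ β : ι, (Iio β).Countable := by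
  refine ⟨(Cardinal.aleph 1).ord.ToType, inferInstance, inferInstance, ?_, ?_⟩
  · rw [← Cardinal.aleph0_lt_mk_iff, Cardinal.mk_ord_toType]
    exact Cardinal.aleph0_lt_aleph_one
  · intro β
    rw [← Cardinal.le_aleph0_iff_set_countable, ← Cardinal.lt_aleph_one_iff]
    have h := Cardinal.mk_Iio_lt β (by rw [Cardinal.mk_ord_toType, Ordinal.type_toType])
    rwa [Cardinal.mk_ord_toType] at h

theorem comb {ι : Type*} [LinearOrder ι] [Uncountable ι]
    (r : ι → ι → ℕ) (hr : ∀ β, InjOn (r β) (Iio β)) (f : ι → ℕ) :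
    ∃ α β, α < β ∧ f α ≤ r β α ∧ f β ≤ r β α := by
  obtain ⟨n, hn⟩ : ∃ n, ¬ (f ⁻¹' {n}).Countable := by
    by_contra hcon
    push Not at hcon
    have h1 : (⋃ n, f ⁻¹' {n}).Countable := countable_iUnion hcon
    have h2 : (⋃ n, f ⁻¹' {n}) = univ := by
      ext x
      simp
    rw [h2] at h1
    exact not_countable_univ h1
  obtain ⟨β, hβ, hinf⟩ : ∃ β ∈ f ⁻¹' {n}, ((f ⁻¹' {n}) ∩ Iio β).Infinite := by
    by_contra hcon
    push Not at hcon
    apply hn
    refine MapsTo.countable_of_injOn (t := (univ : Set ℕ))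
      (f := fun β => ((f ⁻¹' {n}) ∩ Iio β).ncard) (mapsTo_univ _ _) ?_ (to_countable _)
    intro α hα β hβ hαβ
    simp only at hαβ
    rcases lt_trichotomy α β with h | h | h
    · exfalso
      have : ((f ⁻¹' {n}) ∩ Iio α) ⊂ ((f ⁻¹' {n}) ∩ Iio β) := by
        refine ⟨inter_subset_inter_right _ (Iio_subset_Iio h.le), fun h' => ?_⟩
        exact lt_irrefl α (h' ⟨hα, h⟩).2
      exact absurd hαβ (ncard_lt_ncard this (hcon β hβ)).ne
    · exact h
    · exfalso
      have : ((f ⁻¹' {n}) ∩ Iio β) ⊂ ((f ⁻¹' {n}) ∩ Iio α) := by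
        refine ⟨inter_subset_inter_right _ (Iio_subset_Iio h.le), fun h' => ?_⟩
        exact lt_irrefl β (h' ⟨hβ, h⟩).2
      exact absurd hαβ (ncard_lt_ncard this (hcon α hα)).ne'
  have h3 : (r β '' ((f ⁻¹' {n}) ∩ Iio β)).Infinite :=
    hinf.image ((hr β).mono inter_subset_right)
  obtain ⟨m, ⟨α, ⟨hα1, hα2⟩, rfl⟩, hm⟩ := h3.exists_gt n
  refine ⟨α, β, hα2, ?_, ?_⟩
  · rw [show f α = n from hα1]; exact hm.le
  · rw [show f β = n from hβ]; exact hm.le

variable {G : Type u} [TopologicalSpace G]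

namespace Ops

variable (o : Ops G)

theorem rsc_preimage {A : Set G} (hA : RSC A) (x : G) : RSC {y | o.p x y ∈ A} := by
  intro z hz
  obtain ⟨φ, a, hφ, ha⟩ := hA (fun k => o.p x (z k)) hz
  refine ⟨φ, o.q x a, hφ, ?_⟩
  have := o.tendsto_q (tendsto_const_nhds (x := x) (f := atTop (α := ℕ))) ha
  simpa only [Function.comp_def, o.qp] using this

/-- The barrier lemma. -/
theorem exists_barrier [T2Space G] [SequentialSpace G] {P : Set (Set G)}
    (hP : PointCountable P) (hC : Captures P) (hR : ∀ A ∈ P, RSC A) :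
    ∃ 𝒯 : Set (Set G), 𝒯.Countable ∧ (∀ T ∈ 𝒯, RSC T) ∧
      ∀ s : ℕ → G, Tendsto s atTop (𝓝 o.e) → ∃ k, s k ∈ ⋃₀ 𝒯 := by
  have hreg : RegularSpace G := o.regularSpace
  by_contra hcon
  -- for each countable `M` there is a sequence avoiding the translated members
  have h1 : ∀ M : Set G, ∃ s : ℕ → G, M.Countable → (Tendsto s atTop (𝓝 o.e) ∧
      ∀ k, ∀ x ∈ M, ∀ A ∈ P, (A ∩ M).Nonempty → o.p x (s k) ∉ A) := by
    intro M
    by_cases hM : M.Countable
    · by_contra h2
      push Not at h2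
      apply hcon
      refine ⟨(fun w : G × Set G => {y | o.p w.1 y ∈ w.2}) ''
        (M ×ˢ {A | A ∈ P ∧ (A ∩ M).Nonempty}), ?_, ?_, ?_⟩
      · exact (hM.prod (hP.countable_meeting hM)).image _
      · rintro T ⟨⟨x, A⟩, ⟨hx, hA⟩, rfl⟩
        exact o.rsc_preimage (hR A hA.1) x
      · intro s hs
        obtain ⟨-, h3⟩ := h2 s
        obtain ⟨k, x, hx, A, hA, hAM, hk⟩ := h3 hs
        exact ⟨k, _, ⟨(x, A), ⟨hx, hA, hAM⟩, rfl⟩, hk⟩
    · exact ⟨fun _ => o.e, fun h => absurd h hM⟩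
  choose s hs using h1
  obtain ⟨ι, hlin, hwf, hunc, hIio⟩ := exists_omega1_type
  let N : ∀ β : ι, (∀ α, α < β → (ℕ → G)) → Set G := fun β g =>
    insert o.e {y | ∃ α, ∃ h : α < β, ∃ n, y = g α h n}
  let F : ι → (ℕ → G) := (wellFounded_lt (α := ι)).fix fun β g =>
    s (image2 o.p (N β g) (N β g))
  have hF : ∀ β, F β = s (image2 o.p (N β fun α _ => F α) (N β fun α _ => F α)) := fun β =>
    (wellFounded_lt (α := ι)).fix_eq _ β
  let NN : ι → Set G := fun β => insert o.e {y | ∃ α, ∃ _ : α < β, ∃ n, y = F α n}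
  let M : ι → Set G := fun β => image2 o.p (NN β) (NN β)
  have hFM : ∀ β, F β = s (M β) := hF
  have hNNc : ∀ β, (NN β).Countable := by
    intro β
    refine Countable.insert _ ?_
    have h2 : {y | ∃ α, ∃ _ : α < β, ∃ n, y = F α n} =
        ⋃ α ∈ Iio β, range (F α) := by
      ext y
      simp only [mem_ofPred_eq, mem_iUnion, mem_Iio, mem_range, exists_prop]
      constructor
      · rintro ⟨α, h, n, rfl⟩
        exact ⟨α, h, n, rfl⟩
      · rintro ⟨α, h, n, rfl⟩
        exact ⟨α, h, n, rfl⟩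
    rw [h2]
    exact (hIio β).biUnion fun α _ => countable_range _
  have hMc : ∀ β, (M β).Countable := fun β => (hNNc β).image2 (hNNc β) _
  have hFt : ∀ β, Tendsto (F β) atTop (𝓝 o.e) := by
    intro β
    rw [hFM]
    exact (hs (M β) (hMc β)).1
  have hFa : ∀ β, ∀ k, ∀ x ∈ M β, ∀ A ∈ P, (A ∩ M β).Nonempty → o.p x (F β k) ∉ A := by
    intro β
    rw [hFM]
    exact (hs (M β) (hMc β)).2
  have heNN : ∀ β, o.e ∈ NN β := fun β => mem_insert _ _
  have hFNN : ∀ α β n, α < β → F α n ∈ NN β := fun α β n h => Or.inr ⟨α, h, n, rfl⟩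
  have hNNM : ∀ β, NN β ⊆ M β := by
    intro β y hy
    exact ⟨o.e, heNN β, y, hy, o.pe y⟩
  -- each member of `P` meets at most one of the sequences
  have hone : ∀ α β, α < β → ∀ A ∈ P, ∀ m n, F α m ∈ A → F β n ∉ A := by
    intro α β h A hA m n hm hn
    refine hFa β n o.e (hNNM β (heNN β)) A hA ⟨F α m, hm, hNNM β (hFNN α β m h)⟩ ?_
    rwa [o.pe]
  have hone' : ∀ α β, α ≠ β → ∀ A ∈ P, ∀ m n, F α m ∈ A → F β n ∉ A := by
    intro α β h A hA m n hm hn
    rcases lt_or_gt_of_ne h with h | h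
    · exact hone α β h A hA m n hm hn
    · exact hone β α h A hA n m hn hm
  -- injections
  have hinj : ∀ β : ι, ∃ r : ι → ℕ, InjOn r (Iio β) := by
    intro β
    exact countable_iff_exists_injOn.1 (hIio β)
  choose r hr using hinj
  -- the points `x α = F α (r β α)` for `α < β` have no convergent injective sequence
  have hNC : ∀ β, NoConv (fun α : Iio β => F α.1 (r β α.1)) := by
    intro β i hi a ha
    obtain ⟨A, hA, -, hf⟩ := hC _ a univ ha isOpen_univ trivial
    obtain ⟨k, hk⟩ := hf.exists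
    obtain ⟨l, hl1, hl2⟩ := (hf.and_eventually (eventually_gt_atTop k)).exists
    have hne : (i k).1 ≠ (i l).1 := fun h => (hl2.ne) (hi (Subtype.ext h))
    exact hone' _ _ hne A hA _ _ hk hl1
  have hexp : ∀ β, ∃ J : Iio β → ℕ, ∀ j : Iio β → ℕ, (∀ α, J α ≤ j α) →
      NoConv (fun α : Iio β => o.p (F α.1 (r β α.1)) (F β (j α))) := by
    intro β
    have : Countable (Iio β) := (hIio β).to_subtype
    refine expansion hP hC (hNC β) (fun α j => o.p (F α.1 (r β α.1)) (F β j)) ?_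
      (fun α => r β α.1) ?_
    · intro α
      have := o.tendsto_p (tendsto_const_nhds (x := F α.1 (r β α.1)) (f := atTop (α := ℕ)))
        (hFt β)
      rwa [o.xe] at this
    · intro α α' h
      exact Subtype.ext (hr β α.2 α'.2 h)
  choose J hJ using hexp
  -- the set `B`
  let I : Type := Σ β : ι, Iio β
  let b : I → G := fun w => o.p (F w.2.1 (r w.1 w.2.1)) (F w.1 (max (J w.1 w.2) (r w.1 w.2.1)))
  have hbM : ∀ w : I, ∀ γ, w.1 < γ → b w ∈ M γ := by
    intro w γ hγ
    exact ⟨_, hFNN _ _ _ (lt_trans w.2.2 hγ), _, hFNN _ _ _ hγ, rfl⟩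
  have hbNC : NoConv b := by
    intro i hi a ha
    obtain ⟨φ, hφ, h | h⟩ := exists_subseq_const_or_injective (fun n => (i n).1)
    · -- constant `β`
      have ha' : Tendsto (fun n => b (i (φ n))) atTop (𝓝 a) := ha.comp hφ.tendsto_atTop
      obtain ⟨β0, hβ0⟩ : ∃ β0, ∀ n, (i (φ n)).1 = β0 := ⟨_, h⟩
      have h2 : ∀ n, ∃ α : Iio β0, i (φ n) = ⟨β0, α⟩ := by
        intro n
        have h3 := hβ0 n
        rcases hw : i (φ n) with ⟨β, α⟩
        rw [hw] at h3
        simp only at h3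
        subst h3
        exact ⟨α, rfl⟩
      choose α hα using h2
      refine hJ β0 (fun α => max (J β0 α) (r β0 α.1)) (fun α => le_max_left _ _) α ?_ a ?_
      · intro m n hmn
        have : i (φ m) = i (φ n) := by rw [hα m, hα n, hmn]
        exact hφ.injective (hi this)
      · have h4 : (fun n => b (i (φ n))) = fun n => b ⟨β0, α n⟩ := by
          funext n
          rw [hα n]
        rw [h4] at ha'
        exact ha'
    · -- distinct `β`
      obtain ⟨A, hA, -, hf⟩ := hC _ a univ (ha.comp hφ.tendsto_atTop) isOpen_univ trivial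
      simp only [Function.comp_def] at hf
      obtain ⟨k, hk⟩ := hf.exists
      obtain ⟨l, hl1, hl2⟩ := (hf.and_eventually (eventually_gt_atTop k)).exists
      have hne : (i (φ k)).1 ≠ (i (φ l)).1 := fun h' => hl2.ne (h h')
      have key : ∀ v w : I, v.1 < w.1 → b v ∈ A → b w ∉ A := by
        intro v w hvw hv hw
        refine hFa w.1 _ _ ?_ A hA ⟨b v, hv, hbM v w.1 hvw⟩ hw
        exact hNNM _ (hFNN _ _ _ w.2.2)
      rcases lt_or_gt_of_ne hne with h' | h'
      · exact key _ _ h' hk hl1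
      · exact key _ _ h' hl1 hk
  have hBcl : IsClosed (range b) := hbNC.isClosed Subset.rfl
  -- `e` is not in the range
  have heB : o.e ∉ range b := by
    rintro ⟨w, hw⟩
    obtain ⟨A, hA, -, hf⟩ := hC (fun _ => o.e) o.e univ tendsto_const_nhds isOpen_univ trivial
    obtain ⟨-, heA⟩ := hf.exists
    refine hFa w.1 (max (J w.1 w.2) (r w.1 w.2.1)) (F w.2.1 (r w.1 w.2.1))
      (hNNM _ (hFNN _ _ _ w.2.2)) A hA ⟨o.e, heA, hNNM _ (heNN _)⟩ ?_
    have : o.p (F w.2.1 (r w.1 w.2.1)) (F w.1 (max (J w.1 w.2) (r w.1 w.2.1))) = o.e := hw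
    rw [this]
    exact heA
  -- but it is in the closure
  have hecl : o.e ∈ closure (range b) := by
    rw [mem_closure_iff_nhds]
    intro W hW
    have h : Tendsto (fun z : G × G => o.p z.1 z.2) (𝓝 (o.e, o.e)) (𝓝 o.e) := by
      have := o.hp.tendsto (o.e, o.e)
      simp only [o.xe] at this
      exact this
    have h2 := h hW
    rw [mem_map, nhds_prod_eq, mem_prod_iff] at h2
    obtain ⟨V, hV, O, hO, hVO⟩ := h2
    have h3 : ∀ β, ∃ f, ∀ n, f ≤ n → F β n ∈ V ∩ O := fun β =>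
      eventually_atTop.1 (hFt β (inter_mem hV hO))
    choose f hf using h3
    obtain ⟨α, β, hαβ, h4, h5⟩ := comb r hr f
    refine ⟨b ⟨β, ⟨α, hαβ⟩⟩, ?_, ⟨β, ⟨α, hαβ⟩⟩, rfl⟩
    have h6 : (F α (r β α), F β (max (J β ⟨α, hαβ⟩) (r β α))) ∈ V ×ˢ O :=
      ⟨(hf α _ h4).1, (hf β _ (h5.trans (le_max_right _ _))).2⟩
    exact hVO h6
  rw [hBcl.closure_eq] at hecl
  exact heB hecl

end Ops

end Pool.Agent.MP_32aa7d_gt
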