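import Pool.Agent.Lib.MP_32aa7d_gt.Defs

/-!
Basic facts on rectifiable spaces: the two continuous operations, regularity, metrizability of
first countable rectifiable spaces.
-/

namespace Pool.Agent.MP_32aa7d_gt

open Set Filter Topology

universe u

/-- The two continuous operations attached to a (normalized) rectification. -/
structure Ops (G : Type u) [TopologicalSpace G] where
  e : G
  p : G → G → G
  q : G → G → G
  hp : Continuous (fun z : G × G => p z.1 z.2)
  hq : Continuous (fun z : G × G => q z.1 z.2)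
  pq : ∀ x y, p x (q x y) = y
  qp : ∀ x y, q x (p x y) = y
  qxx : ∀ x, q x x = e
  pe : ∀ y, p e y = y

variable {G : Type u} [TopologicalSpace G]

theorem Rectifiable.exists_ops (h : Rectifiable G) : Nonempty (Ops G) := by
  obtain ⟨e, φ, h1, h2⟩ := h
  have hφ : ∀ x y, φ (x, y) = (x, (φ (x, y)).2) := fun x y => Prod.ext (h1 x y) rfl
  have h1' : ∀ x y, (φ.symm (x, y)).1 = x := by
    intro x y
    have := h1 (φ.symm (x, y)).1 (φ.symm (x, y)).2
    rw [Prod.mk.eta, φ.apply_symm_apply] at this
    exact this.symm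
  have hφ' : ∀ x y, φ.symm (x, y) = (x, (φ.symm (x, y)).2) := fun x y => Prod.ext (h1' x y) rfl
  have pq0 : ∀ x y, (φ.symm (x, (φ (x, y)).2)).2 = y := by
    intro x y
    rw [← hφ x y, φ.symm_apply_apply]
  have qp0 : ∀ x y, (φ (x, (φ.symm (x, y)).2)).2 = y := by
    intro x y
    rw [← hφ' x y, φ.apply_symm_apply]
  have cp0 : Continuous (fun z : G × G => (φ.symm z).2) := continuous_snd.comp φ.symm.continuous
  have cq0 : Continuous (fun z : G × G => (φ z).2) := continuous_snd.comp φ.continuous
  have qe0 : ∀ x, (φ (x, x)).2 = e := fun x => by rw [h2]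
  refine ⟨{ e := e
            p := fun x y => (φ.symm (x, (φ (e, y)).2)).2
            q := fun x y => (φ.symm (e, (φ (x, y)).2)).2
            hp := ?_
            hq := ?_
            pq := ?_
            qp := ?_
            qxx := ?_
            pe := ?_ }⟩
  · exact cp0.comp (continuous_fst.prodMk (cq0.comp (continuous_const.prodMk continuous_snd)))
  · exact cp0.comp (continuous_const.prodMk cq0)
  · intro x y
    rw [qp0, pq0]
  · intro x y
    rw [qp0, pq0]
  · intro x
    rw [qe0]
    have := pq0 e e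
    rwa [qe0] at this
  · intro y
    exact pq0 e y

namespace Ops

variable (o : Ops G)

theorem xe (x : G) : o.p x o.e = x := by
  have := o.pq x x
  rwa [o.qxx] at this

theorem qe (y : G) : o.q o.e y = y := by
  have := o.qp o.e y
  rwa [o.pe] at this

theorem continuous_p {X : Type*} [TopologicalSpace X] {f g : X → G} (hf : Continuous f)
    (hg : Continuous g) : Continuous (fun x => o.p (f x) (g x)) :=
  o.hp.comp (hf.prodMk hg)

theorem continuous_q {X : Type*} [TopologicalSpace X] {f g : X → G} (hf : Continuous f)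
    (hg : Continuous g) : Continuous (fun x => o.q (f x) (g x)) :=
  o.hq.comp (hf.prodMk hg)

theorem tendsto_p {X : Type*} {l : Filter X} {f g : X → G} {a b : G} (hf : Tendsto f l (𝓝 a))
    (hg : Tendsto g l (𝓝 b)) : Tendsto (fun x => o.p (f x) (g x)) l (𝓝 (o.p a b)) :=
  (o.hp.tendsto (a, b)).comp (hf.prodMk_nhds hg)

theorem tendsto_q {X : Type*} {l : Filter X} {f g : X → G} {a b : G} (hf : Tendsto f l (𝓝 a))
    (hg : Tendsto g l (𝓝 b)) : Tendsto (fun x => o.q (f x) (g x)) l (𝓝 (o.q a b)) :=
  (o.hq.tendsto (a, b)).comp (hf.prodMk_nhds hg)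

include o in
/-- Rectifiable spaces are regular. -/
theorem regularSpace : RegularSpace G := by
  refine RegularSpace.of_exists_mem_nhds_isClosed_subset ?_
  intro x s hs
  have h : Tendsto (fun z : G × G => o.p z.1 z.2) (𝓝 (x, o.e)) (𝓝 x) := by
    have := o.hp.tendsto (x, o.e)
    simp only [o.xe] at this
    exact this
  have h2 := h hs
  rw [mem_map, nhds_prod_eq, mem_prod_iff] at h2
  obtain ⟨V, hV, W, hW, hVW⟩ := h2
  refine ⟨closure V, mem_of_superset hV subset_closure, isClosed_closure, ?_⟩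
  intro z hz
  have hc : Tendsto (fun v => o.q v z) (𝓝 z) (𝓝 o.e) := by
    have := (o.continuous_q continuous_id (continuous_const (y := z))).tendsto z
    simp only [id, o.qxx] at this
    exact this
  have hm : {v | o.q v z ∈ W} ∈ 𝓝 z := hc hW
  obtain ⟨v, hv1, hv2⟩ := mem_closure_iff_nhds.1 hz _ hm
  have : (v, o.q v z) ∈ V ×ˢ W := ⟨hv2, hv1⟩
  have h3 := hVW this
  simp only [mem_preimage, o.pq] at h3
  exact h3

include o in
/-- First countable rectifiable spaces are pseudometrizable. -/
theorem pseudoMetrizableSpace (h : (𝓝 o.e).IsCountablyGenerated) :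
    TopologicalSpace.PseudoMetrizableSpace G := by
  obtain ⟨U, hU⟩ := (𝓝 o.e).exists_antitone_basis
  -- symmetric entourages
  let E : ℕ → G → G → Prop := fun n x y => o.q x y ∈ U n ∧ o.q y x ∈ U n
  have hEsymm : ∀ n x y, E n x y → E n y x := fun n x y h => ⟨h.2, h.1⟩
  have hErefl : ∀ n x, E n x x := by
    intro n x
    have : o.e ∈ U n := mem_of_mem_nhds (hU.1.mem_of_mem trivial)
    exact ⟨by rw [o.qxx]; exact this, by rw [o.qxx]; exact this⟩
  have hEmono : ∀ {m n}, m ≤ n → ∀ x y, E n x y → E m x y := fun {m n} hmn x y h =>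
    ⟨hU.2 hmn h.1, hU.2 hmn h.2⟩
  have hEnhds : ∀ n x, {y | E n x y} ∈ 𝓝 x := by
    intro n x
    have hUn : U n ∈ 𝓝 o.e := hU.1.mem_of_mem trivial
    have h1 : Tendsto (fun y => o.q x y) (𝓝 x) (𝓝 o.e) := by
      have := (o.continuous_q (continuous_const (y := x)) continuous_id).tendsto x
      simp only [id, o.qxx] at this
      exact this
    have h2 : Tendsto (fun y => o.q y x) (𝓝 x) (𝓝 o.e) := by
      have := (o.continuous_q continuous_id (continuous_const (y := x))).tendsto x
      simp only [id, o.qxx] at this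
      exact this
    exact inter_mem (h1 hUn) (h2 hUn)
  have hE3 : ∀ x, ∀ O ∈ 𝓝 x, ∃ n, ∀ y y' z, E n x y → E n y y' → E n y' z → z ∈ O := by
    intro x O hO
    have hc : Tendsto (fun t : G × G × G => o.p (o.p (o.p x t.1) t.2.1) t.2.2)
        (𝓝 (o.e, o.e, o.e)) (𝓝 x) := by
      have := (o.continuous_p (o.continuous_p (o.continuous_p (continuous_const (y := x))
        continuous_fst) (continuous_fst.comp continuous_snd))
        (continuous_snd.comp continuous_snd)).tendsto ((o.e, o.e, o.e) : G × G × G)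
      simp only [Function.comp, o.xe] at this
      exact this
    have h1 := hc hO
    have hb : (𝓝 ((o.e, o.e, o.e) : G × G × G)).HasBasis (fun _ : ℕ => True)
        (fun n => U n ×ˢ U n ×ˢ U n) := by
      rw [nhds_prod_eq, nhds_prod_eq]
      exact (hU.prod (hU.prod hU)).1
    obtain ⟨n, -, hn⟩ := hb.mem_iff.1 h1
    refine ⟨n, fun y y' z h1 h2 h3 => ?_⟩
    have h4 : (o.q x y, o.q y y', o.q y' z) ∈ U n ×ˢ U n ×ˢ U n := ⟨h1.1, h2.1, h3.1⟩
    have h5 := hn h4
    simp only [mem_preimage, o.pq] at h5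
    exact h5
  -- the radii
  have hstep : ∀ x : G, ∀ m : ℕ, ∃ m', m < m' ∧
      ∀ y y' z, E m' x y → E m' y y' → E m' y' z → E m x z := by
    intro x m
    obtain ⟨n, hn⟩ := hE3 x _ (hEnhds m x)
    refine ⟨max (m + 1) n, lt_of_lt_of_le (Nat.lt_succ_self m) (le_max_left _ _), ?_⟩
    intro y y' z h1 h2 h3
    exact hn y y' z (hEmono (le_max_right _ _) _ _ h1) (hEmono (le_max_right _ _) _ _ h2)
      (hEmono (le_max_right _ _) _ _ h3)
  choose s hs1 hs2 using hstep
  let r : G → ℕ → ℕ := fun x n => Nat.rec 0 (fun _ m => s x m) n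
  have hr1 : ∀ x n, r x n < r x (n + 1) := fun x n => hs1 x (r x n)
  have hr2 : ∀ x n y y' z, E (r x (n + 1)) x y → E (r x (n + 1)) y y' → E (r x (n + 1)) y' z →
      E (r x n) x z := fun x n => hs2 x (r x n)
  have hrn : ∀ x n, n ≤ r x n := fun x n => (strictMono_nat_of_lt_succ (hr1 x)).le_apply
  let V : ℕ → Set (G × G) := fun n => {w | ∃ z, E (r z n) z w.1 ∧ E (r z n) z w.2}
  have hVsymm : ∀ n x y, (x, y) ∈ V n → (y, x) ∈ V n := by
    rintro n x y ⟨z, h1, h2⟩
    exact ⟨z, h2, h1⟩
  have hVcomp : ∀ n x y w, (x, y) ∈ V (n + 1) → (y, w) ∈ V (n + 1) → (x, w) ∈ V n := by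
    have key : ∀ n x y w z z', E (r z (n + 1)) z x → E (r z (n + 1)) z y →
        E (r z' (n + 1)) z' y → E (r z' (n + 1)) z' w → r z (n + 1) ≤ r z' (n + 1) →
        (x, w) ∈ V n := by
      intro n x y w z z' h1 h2 h3 h4 hle
      refine ⟨z, ?_, ?_⟩
      · exact hr2 z n z z x (hErefl _ _) (hErefl _ _) h1
      · exact hr2 z n y z' w h2 (hEsymm _ _ _ (hEmono hle _ _ h3)) (hEmono hle _ _ h4)
    rintro n x y w ⟨z, h1, h2⟩ ⟨z', h3, h4⟩
    rcases le_total (r z (n + 1)) (r z' (n + 1)) with hle | hle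
    · exact key n x y w z z' h1 h2 h3 h4 hle
    · exact hVsymm _ _ _ (key n w y x z' z h4 h3 h2 h1 hle)
  have hVrefl : ∀ n x, (x, x) ∈ V n := fun n x => ⟨x, hErefl _ _, hErefl _ _⟩
  have hVanti : Antitone V := by
    refine antitone_nat_of_succ_le ?_
    rintro n ⟨x, y⟩ h
    exact hVcomp n x y y h (hVrefl (n + 1) y)
  let F : Filter (G × G) := ⨅ n, 𝓟 (V n)
  have hF : F.HasAntitoneBasis V := .iInf_principal hVanti
  let us : UniformSpace G :=
    { toTopologicalSpace := ‹TopologicalSpace G›
      uniformity := F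
      symm := by
        rw [hF.1.tendsto_iff hF.1]
        intro n _
        refine ⟨n, trivial, ?_⟩
        rintro ⟨x, y⟩ h
        exact hVsymm n x y h
      comp := by
        intro t ht
        obtain ⟨n, -, hn⟩ := hF.1.mem_iff.1 ht
        refine mem_of_superset (mem_lift' (hF.1.mem_of_mem (i := n + 1) trivial)) ?_
        rintro ⟨x, w⟩ ⟨y, h1, h2⟩
        exact hn (hVcomp n x y w h1 h2)
      nhds_eq_comap_uniformity := by
        intro x
        have hb : (comap (Prod.mk x) F).HasBasis (fun _ : ℕ => True)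
            (fun n => Prod.mk x ⁻¹' V n) := hF.1.comap _
        refine le_antisymm ?_ ?_
        · rw [hb.ge_iff]
          intro n _
          refine mem_of_superset (hEnhds (r x n) x) ?_
          intro y hy
          exact ⟨x, hErefl _ _, hy⟩
        · intro O hO
          obtain ⟨m, hm⟩ := hE3 x O hO
          refine hb.mem_iff.2 ⟨m, trivial, ?_⟩
          rintro y ⟨z, h1, h2⟩
          have h1' := hEmono (hrn z m) _ _ h1
          have h2' := hEmono (hrn z m) _ _ h2
          exact hm x z y (hErefl _ _) (hEsymm _ _ _ h1') h2' }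
  have : IsCountablyGenerated (uniformity G) := hF.isCountablyGenerated
  exact UniformSpace.pseudoMetrizableSpace

end Ops

end Pool.Agent.MP_32aa7d_gt
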