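import Pool.Agent.Lib.MP_32aa7d_gt.Barrier

/-!
Clopen Lindelöf subsets generated by a barrier, and the decomposition of the space.
-/

namespace Pool.Agent.MP_32aa7d_gt

open Set Filter Topology

universe u

variable {G : Type u} [TopologicalSpace G]

/-- countable unions of relatively sequentially compact sets (and their subsets) -/
def SRSC (S : Set G) : Prop :=
  ∃ 𝒞 : Set (Set G), 𝒞.Countable ∧ (∀ C ∈ 𝒞, RSC C) ∧ S ⊆ ⋃₀ 𝒞

theorem RSC.singleton (x : G) : RSC ({x} : Set G) := by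
  intro z hz
  refine ⟨id, x, strictMono_id, ?_⟩
  have : z ∘ id = fun _ => x := funext fun k => hz k
  rw [this]
  exact tendsto_const_nhds

theorem RSC.mono {A B : Set G} (hB : RSC B) (h : A ⊆ B) : RSC A := fun z hz =>
  hB z fun k => h (hz k)

theorem RSC.image2 {A B : Set G} (hA : RSC A) (hB : RSC B) {f : G → G → G}
    (hf : Continuous fun z : G × G => f z.1 z.2) : RSC (image2 f A B) := by
  intro z hz
  choose x hx y hy hxy using hz
  obtain ⟨φ, a, hφ, ha⟩ := hA x hx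
  obtain ⟨ψ, b, hψ, hb⟩ := hB (fun k => y (φ k)) fun k => hy _
  refine ⟨φ ∘ ψ, f a b, hφ.comp hψ, ?_⟩
  have h1 : Tendsto (fun k => x (φ (ψ k))) atTop (𝓝 a) := ha.comp hψ.tendsto_atTop
  have h2 : Tendsto (fun k => y (φ (ψ k))) atTop (𝓝 b) := hb
  have h3 := (hf.tendsto (a, b)).comp (h1.prodMk_nhds h2)
  refine h3.congr fun k => ?_
  exact hxy _

theorem SRSC.mono {S S' : Set G} (h : SRSC S') (hS : S ⊆ S') : SRSC S := by
  obtain ⟨𝒞, h1, h2, h3⟩ := h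
  exact ⟨𝒞, h1, h2, hS.trans h3⟩

theorem SRSC.iUnion {ι : Type*} [Countable ι] {S : ι → Set G} (h : ∀ i, SRSC (S i)) :
    SRSC (⋃ i, S i) := by
  choose 𝒞 h1 h2 h3 using h
  refine ⟨⋃ i, 𝒞 i, countable_iUnion h1, ?_, ?_⟩
  · intro C hC
    obtain ⟨i, hi⟩ := mem_iUnion.1 hC
    exact h2 i C hi
  · refine iUnion_subset fun i => (h3 i).trans ?_
    exact sUnion_subset_sUnion (subset_iUnion 𝒞 i)

theorem SRSC.union {S S' : Set G} (h : SRSC S) (h' : SRSC S') : SRSC (S ∪ S') := by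
  obtain ⟨𝒞, h1, h2, h3⟩ := h
  obtain ⟨𝒞', h1', h2', h3'⟩ := h'
  refine ⟨𝒞 ∪ 𝒞', h1.union h1', ?_, ?_⟩
  · rintro C (hC | hC)
    · exact h2 C hC
    · exact h2' C hC
  · rw [sUnion_union]
    exact union_subset_union h3 h3'

theorem SRSC.of_countable {S : Set G} (hS : S.Countable) : SRSC S := by
  refine ⟨(fun x => ({x} : Set G)) '' S, hS.image _, ?_, ?_⟩
  · rintro C ⟨x, -, rfl⟩
    exact RSC.singleton x
  · intro x hx
    exact ⟨{x}, ⟨x, hx, rfl⟩, rfl⟩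

theorem SRSC.image2 {S S' : Set G} (h : SRSC S) (h' : SRSC S') {f : G → G → G}
    (hf : Continuous fun z : G × G => f z.1 z.2) : SRSC (image2 f S S') := by
  obtain ⟨𝒞, h1, h2, h3⟩ := h
  obtain ⟨𝒞', h1', h2', h3'⟩ := h'
  refine ⟨Set.image2 (fun A B => Set.image2 f A B) 𝒞 𝒞', h1.image2 h1' _, ?_, ?_⟩
  · rintro C ⟨A, hA, B, hB, rfl⟩
    exact (h2 A hA).image2 (h2' B hB) hf
  · rintro _ ⟨x, hx, y, hy, rfl⟩
    obtain ⟨A, hA, hxA⟩ := h3 hx
    obtain ⟨B, hB, hyB⟩ := h3' hy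
    exact ⟨_, ⟨A, hA, B, hB, rfl⟩, x, hxA, y, hyB, rfl⟩

/-- countable unions of relatively sequentially compact sets which are closed are Lindelöf -/
theorem SRSC.isLindelof {S : Set G} (h : SRSC S) (hS : IsClosed S) {P : Set (Set G)}
    (hP : PointCountable P) (hC : Captures P) : IsLindelof S := by
  apply isLindelof_of_countable_subcover
  intro ι U hU hSU
  obtain ⟨𝒞, h1, h2, h3⟩ := h
  let 𝒬 : Set (Set G) := {A | A ∈ P ∧ ∃ i, A ⊆ U i}
  have h𝒬 : PointCountable 𝒬 := hP.mono fun A hA => hA.1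
  -- each `C ∩ S` is covered by countably many members of `𝒬`
  have h4 : ∀ C ∈ 𝒞, ∃ 𝒬' : Set (Set G), 𝒬'.Countable ∧ 𝒬' ⊆ 𝒬 ∧ C ∩ S ⊆ ⋃₀ 𝒬' := by
    intro C hCC
    by_contra hcon
    push Not at hcon
    obtain ⟨z, hz1, hz2⟩ := exists_seq_of_forall_finset_exists (fun y => y ∈ C ∩ S)
      (fun x y => ∀ A ∈ 𝒬, x ∈ A → y ∉ A) (by
        intro s _
        have h5 := hcon {A | A ∈ 𝒬 ∧ (A ∩ (s : Set G)).Nonempty}
          (h𝒬.countable_meeting s.countable_toSet) (fun A hA => hA.1)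
        rw [not_subset] at h5
        obtain ⟨y, hy1, hy2⟩ := h5
        refine ⟨y, hy1, fun x hx A hA hxA hyA => hy2 ?_⟩
        exact ⟨A, ⟨hA, x, hxA, hx⟩, hyA⟩)
    obtain ⟨φ, a, hφ, ha⟩ := h2 C hCC z fun k => (hz1 k).1
    have haS : a ∈ S := hS.mem_of_tendsto ha (Eventually.of_forall fun k => (hz1 _).2)
    obtain ⟨i, hi⟩ := mem_iUnion.1 (hSU haS)
    obtain ⟨A, hA, hAU, hf⟩ := hC _ a (U i) ha (hU i) hi
    obtain ⟨k, hk⟩ := hf.exists
    obtain ⟨l, hl1, hl2⟩ := (hf.and_eventually (eventually_gt_atTop k)).exists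
    exact hz2 (φ k) (φ l) (hφ hl2) A ⟨hA, i, hAU⟩ hk hl1
  choose! 𝒬' h5 h6 h7 using h4
  have h8 : (⋃ C ∈ 𝒞, 𝒬' C).Countable := h1.biUnion h5
  have h9 : ∀ A ∈ ⋃ C ∈ 𝒞, 𝒬' C, ∃ i, A ⊆ U i := by
    intro A hA
    simp only [mem_iUnion] at hA
    obtain ⟨C, hCC, hA⟩ := hA
    exact (h6 C hCC hA).2
  rcases isEmpty_or_nonempty ι with hι | hι
  · refine ⟨∅, countable_empty, ?_⟩
    intro x hx
    obtain ⟨i, -⟩ := mem_iUnion.1 (hSU hx)
    exact hι.elim i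
  choose! g hg using h9
  refine ⟨g '' ⋃ C ∈ 𝒞, 𝒬' C, h8.image g, ?_⟩
  intro x hx
  obtain ⟨C, hCC, hxC⟩ := h3 hx
  obtain ⟨A, hA, hxA⟩ := h7 C hCC ⟨hxC, hx⟩
  have hA' : A ∈ ⋃ C ∈ 𝒞, 𝒬' C := mem_biUnion hCC hA
  simp only [mem_iUnion]
  exact ⟨g A, ⟨A, hA', rfl⟩, hg A hA' hxA⟩

/-- disjoint unions of open Lindelöf sets -/
def Nice (C : Set G) : Prop :=
  ∃ 𝒟 : Set (Set G), (∀ D ∈ 𝒟, IsOpen D ∧ IsLindelof D) ∧ 𝒟.PairwiseDisjoint id ∧ ⋃₀ 𝒟 = C

/-- A regular space which is the disjoint union of open Lindelöf subsets is paracompact. -/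
theorem Nice.paracompactSpace [RegularSpace G] (h : Nice (univ : Set G)) : ParacompactSpace G := by
  obtain ⟨𝒟, h1, h2, h3⟩ := h
  rcases isEmpty_or_nonempty G with hG | hG
  · infer_instance
  refine ⟨fun α s hs hcov => ?_⟩
  have h4 : ∀ x : G, ∃ (a : α) (V : Set G), IsOpen V ∧ x ∈ V ∧ closure V ⊆ s a := by
    intro x
    have hx : x ∈ ⋃ a, s a := by rw [hcov]; trivial
    obtain ⟨a, ha⟩ := mem_iUnion.1 hx
    obtain ⟨V, hV1, hV2⟩ := (hasBasis_nhds_closure x).mem_iff.1 ((hs a).mem_nhds ha)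
    exact ⟨a, interior V, isOpen_interior, mem_interior_iff_mem_nhds.2 hV1,
      (closure_mono interior_subset).trans hV2⟩
  choose a V hV1 hV2 hV3 using h4
  have h5 : ∀ D : 𝒟, ∃ f : ℕ → G, D.1 ⊆ ⋃ n, V (f n) := by
    intro D
    refine (h1 D.1 D.2).2.indexed_countable_subcover V hV1 ?_
    intro x _
    exact mem_iUnion.2 ⟨x, hV2 x⟩
  choose f hf using h5
  have hdisj : ∀ D D' : 𝒟, ∀ x, x ∈ D.1 → x ∈ D'.1 → D = D' := by
    intro D D' x hx hx'
    by_contra hne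
    have := h2 D.2 D'.2 (fun h => hne (Subtype.ext h))
    exact (disjoint_left.1 this) hx hx'
  refine ⟨𝒟 × ℕ, fun w => w.1.1 ∩ s (a (f w.1 w.2)) ∩ (⋃ k ∈ Iio w.2, closure (V (f w.1 k)))ᶜ,
    ?_, ?_, ?_, ?_⟩
  · rintro ⟨D, n⟩
    refine ((h1 D.1 D.2).1.inter (hs _)).inter ?_
    exact ((finite_Iio n).isClosed_biUnion fun k _ => isClosed_closure).isOpen_compl
  · refine eq_univ_of_forall fun x => ?_
    have hx : x ∈ ⋃₀ 𝒟 := by rw [h3]; trivial
    obtain ⟨D, hD, hxD⟩ := hx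
    have h6 : ∃ n, x ∈ closure (V (f ⟨D, hD⟩ n)) := by
      obtain ⟨n, hn⟩ := mem_iUnion.1 (hf ⟨D, hD⟩ hxD)
      exact ⟨n, subset_closure hn⟩
    classical
    refine mem_iUnion.2 ⟨(⟨D, hD⟩, Nat.find h6), ⟨hxD, hV3 _ (Nat.find_spec h6)⟩, ?_⟩
    intro h7
    simp only [mem_iUnion] at h7
    obtain ⟨k, hk1, hk2⟩ := h7
    exact Nat.find_min h6 hk1 hk2
  · intro x
    have hx : x ∈ ⋃₀ 𝒟 := by rw [h3]; trivial
    obtain ⟨D, hD, hxD⟩ := hx
    obtain ⟨m, hm⟩ := mem_iUnion.1 (hf ⟨D, hD⟩ hxD)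
    refine ⟨D ∩ V (f ⟨D, hD⟩ m), ((h1 D hD).1.inter (hV1 _)).mem_nhds ⟨hxD, hm⟩, ?_⟩
    refine ((finite_singleton (⟨D, hD⟩ : 𝒟)).prod (finite_Iic m)).subset ?_
    rintro ⟨D', n⟩ ⟨y, ⟨⟨hy1, -⟩, hy2⟩, hy3, hy4⟩
    have hDD' : D' = ⟨D, hD⟩ := hdisj _ _ y hy1 hy3
    subst hDD'
    refine ⟨rfl, ?_⟩
    by_contra hnm
    apply hy2
    have hmn : m < n := not_le.1 hnm
    simp only [mem_iUnion]
    exact ⟨m, hmn, subset_closure hy4⟩
  · rintro ⟨D, n⟩
    exact ⟨a (f D n), fun x hx => hx.1.2⟩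

namespace Ops

variable (o : Ops G)

/-- levels of the generated set -/
def lev (S : Set G) : ℕ → Set G
  | 0 => S
  | n + 1 => lev S n ∪ image2 o.p (lev S n) (lev S n) ∪ image2 o.q (lev S n) (lev S n)

/-- the sub-rectifiable set generated by `S` -/
def gen (S : Set G) : Set G := ⋃ n, o.lev S n

theorem lev_mono (S : Set G) : Monotone (o.lev S) := monotone_nat_of_le_succ fun _ =>
  subset_union_left.trans subset_union_left

theorem subset_gen (S : Set G) : S ⊆ o.gen S := subset_iUnion (o.lev S) 0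

theorem p_mem_gen {S : Set G} {x y : G} (hx : x ∈ o.gen S) (hy : y ∈ o.gen S) :
    o.p x y ∈ o.gen S := by
  obtain ⟨n, hn⟩ := mem_iUnion.1 hx
  obtain ⟨m, hm⟩ := mem_iUnion.1 hy
  refine mem_iUnion.2 ⟨max n m + 1, Or.inl (Or.inr ⟨x, ?_, y, ?_, rfl⟩)⟩
  · exact o.lev_mono S (le_max_left _ _) hn
  · exact o.lev_mono S (le_max_right _ _) hm

theorem q_mem_gen {S : Set G} {x y : G} (hx : x ∈ o.gen S) (hy : y ∈ o.gen S) :
    o.q x y ∈ o.gen S := by
  obtain ⟨n, hn⟩ := mem_iUnion.1 hx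
  obtain ⟨m, hm⟩ := mem_iUnion.1 hy
  refine mem_iUnion.2 ⟨max n m + 1, Or.inr ⟨x, ?_, y, ?_, rfl⟩⟩
  · exact o.lev_mono S (le_max_left _ _) hn
  · exact o.lev_mono S (le_max_right _ _) hm

theorem gen_subset {S K : Set G} (hSK : S ⊆ K) (hp : ∀ x ∈ K, ∀ y ∈ K, o.p x y ∈ K)
    (hq : ∀ x ∈ K, ∀ y ∈ K, o.q x y ∈ K) : o.gen S ⊆ K := by
  refine iUnion_subset fun n => ?_
  induction n with
  | zero => exact hSK
  | succ n ih =>
    refine union_subset (union_subset ih ?_) ?_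
    · rintro _ ⟨x, hx, y, hy, rfl⟩
      exact hp x (ih hx) y (ih hy)
    · rintro _ ⟨x, hx, y, hy, rfl⟩
      exact hq x (ih hx) y (ih hy)

theorem gen_mono {S S' : Set G} (h : S ⊆ S') : o.gen S ⊆ o.gen S' :=
  o.gen_subset (h.trans (o.subset_gen S')) (fun _ hx _ hy => o.p_mem_gen hx hy)
    (fun _ hx _ hy => o.q_mem_gen hx hy)

theorem srsc_gen {S : Set G} (hS : SRSC S) : SRSC (o.gen S) := by
  refine SRSC.iUnion fun n => ?_
  induction n with
  | zero => exact hS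
  | succ n ih => exact (ih.union (ih.image2 ih o.hp)).union (ih.image2 ih o.hq)

/-- barrier sets -/
def IsBarrier (T : Set G) : Prop :=
  ∀ s : ℕ → G, Tendsto s atTop (𝓝 o.e) → ∃ k, s k ∈ T

theorem isOpen_gen [SequentialSpace G] {T S : Set G} (hT : o.IsBarrier T) (hTS : T ⊆ S) :
    IsOpen (o.gen S) := by
  rw [← isClosed_compl_iff]
  refine IsSeqClosed.isClosed ?_
  intro z a hz ha haS
  have h1 : Tendsto (fun k => o.q a (z k)) atTop (𝓝 o.e) := by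
    have := o.tendsto_q (tendsto_const_nhds (x := a) (f := atTop (α := ℕ))) ha
    rwa [o.qxx] at this
  obtain ⟨k, hk⟩ := hT _ h1
  apply hz k
  have h2 := o.p_mem_gen haS (o.subset_gen S (hTS hk))
  rwa [o.pq] at h2

theorem isClosed_gen [SequentialSpace G] {T S : Set G} (hT : o.IsBarrier T) (hTS : T ⊆ S) :
    IsClosed (o.gen S) := by
  have hop := o.isOpen_gen hT hTS
  have he : o.e ∈ o.gen S := by
    obtain ⟨k, hk⟩ := hT (fun _ => o.e) tendsto_const_nhds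
    exact o.subset_gen S (hTS hk)
  rw [← closure_subset_iff_isClosed]
  intro z hz
  have hc : Tendsto (fun y => o.q y z) (𝓝 z) (𝓝 o.e) := by
    have := (o.continuous_q continuous_id (continuous_const (y := z))).tendsto z
    simp only [id, o.qxx] at this
    exact this
  obtain ⟨y, hy1, hy2⟩ := mem_closure_iff_nhds.1 hz _ (hc (hop.mem_nhds he))
  have h2 := o.p_mem_gen hy2 hy1
  rwa [o.pq] at h2

/-- chains of generated sets -/
theorem gen_chain {κ : Type*} [LinearOrder κ] {T : Set G} {S : κ → Set G} (hS : Monotone S)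
    (L : Set κ) : o.gen (T ∪ ⋃ ξ ∈ L, S ξ) ⊆ o.gen T ∪ ⋃ ξ ∈ L, o.gen (T ∪ S ξ) := by
  have key : ∀ f : G → G → G, (∀ S x y, x ∈ o.gen S → y ∈ o.gen S → f x y ∈ o.gen S) →
      ∀ x ∈ o.gen T ∪ ⋃ ξ ∈ L, o.gen (T ∪ S ξ), ∀ y ∈ o.gen T ∪ ⋃ ξ ∈ L, o.gen (T ∪ S ξ),
        f x y ∈ o.gen T ∪ ⋃ ξ ∈ L, o.gen (T ∪ S ξ) := by
    intro f hf x hx y hy
    have hTm : ∀ ξ, o.gen T ⊆ o.gen (T ∪ S ξ) := fun ξ => o.gen_mono subset_union_left
    have hm : ∀ ξ η, ξ ≤ η → o.gen (T ∪ S ξ) ⊆ o.gen (T ∪ S η) := fun ξ η h =>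
      o.gen_mono (union_subset_union_right _ (hS h))
    simp only [mem_union, mem_iUnion] at hx hy ⊢
    rcases hx with hx | ⟨ξ, hξ, hx⟩
    · rcases hy with hy | ⟨η, hη, hy⟩
      · exact Or.inl (hf _ _ _ hx hy)
      · exact Or.inr ⟨η, hη, hf _ _ _ (hTm η hx) hy⟩
    · rcases hy with hy | ⟨η, hη, hy⟩
      · exact Or.inr ⟨ξ, hξ, hf _ _ _ hx (hTm ξ hy)⟩
      · rcases le_total ξ η with h | h
        · exact Or.inr ⟨η, hη, hf _ _ _ (hm _ _ h hx) hy⟩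
        · exact Or.inr ⟨ξ, hξ, hf _ _ _ hx (hm _ _ h hy)⟩
  refine o.gen_subset ?_ (key o.p fun S x y hx hy => o.p_mem_gen hx hy)
    (key o.q fun S x y hx hy => o.q_mem_gen hx hy)
  refine union_subset ((o.subset_gen T).trans subset_union_left) ?_
  refine iUnion₂_subset fun ξ hξ => ?_
  refine Subset.trans ?_ subset_union_right
  refine Subset.trans ?_ (subset_biUnion_of_mem hξ)
  exact subset_union_right.trans (o.subset_gen _)

theorem nice_gen [SequentialSpace G] {T : Set G} (hT : o.IsBarrier T) (hT2 : SRSC T)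
    {P : Set (Set G)} (hP : PointCountable P) (hC : Captures P) (S : Set G) :
    Nice (o.gen (T ∪ S)) := by
  suffices h : ∀ κ : Cardinal.{u}, ∀ S : Set G, Cardinal.mk S = κ → Nice (o.gen (T ∪ S)) from
    h _ S rfl
  intro κ
  induction κ using WellFoundedLT.induction with
  | ind κ ih =>
  intro S hSκ
  by_cases hc : S.Countable
  · refine ⟨{o.gen (T ∪ S)}, ?_, pairwiseDisjoint_singleton _ _, sUnion_singleton _⟩
    rintro D rfl
    refine ⟨o.isOpen_gen hT subset_union_left, ?_⟩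
    exact (o.srsc_gen (hT2.union (SRSC.of_countable hc))).isLindelof
      (o.isClosed_gen hT subset_union_left) hP hC
  have hinf : Cardinal.aleph0 ≤ κ := by
    rw [← hSκ]
    by_contra h
    exact hc (Cardinal.le_aleph0_iff_set_countable.1 (not_le.1 h).le)
  obtain ⟨E⟩ : Nonempty (κ.ord.ToType ≃ S) := by
    rw [← Cardinal.eq, Cardinal.mk_ord_toType, hSκ]
  let Slt : κ.ord.ToType → Set G := fun ξ => (fun η => (E η).1) '' Iio ξ
  let Sle : κ.ord.ToType → Set G := fun ξ => (fun η => (E η).1) '' Iic ξ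
  have hSle : ∀ ξ, Cardinal.mk (Sle ξ) < κ := by
    intro ξ
    refine lt_of_le_of_lt Cardinal.mk_image_le ?_
    have h1 : Iic ξ = insert ξ (Iio ξ) := by
      ext η
      simp [le_iff_eq_or_lt]
    rw [h1]
    refine lt_of_le_of_lt (Cardinal.mk_insert_le) ?_
    refine Cardinal.add_lt_of_lt hinf ?_ (lt_of_lt_of_le Cardinal.one_lt_aleph0 hinf)
    have h := Cardinal.mk_Iio_lt ξ (by rw [Cardinal.mk_ord_toType, Ordinal.type_toType])
    rwa [Cardinal.mk_ord_toType] at h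
  have hmono : Monotone Sle := fun ξ η h => image_mono (Iic_subset_Iic.2 h)
  have hSltSle : ∀ ξ, Slt ξ = ⋃ η ∈ Iio ξ, Sle η := by
    intro ξ
    ext x
    simp only [Slt, Sle, mem_image, mem_Iio, mem_iUnion, mem_Iic, exists_prop]
    constructor
    · rintro ⟨η, hη, rfl⟩
      exact ⟨η, hη, η, le_rfl, rfl⟩
    · rintro ⟨η, hη, ζ, hζ, rfl⟩
      exact ⟨ζ, lt_of_le_of_lt hζ hη, rfl⟩
  have hSall : S = ⋃ η ∈ (univ : Set κ.ord.ToType), Sle η := by
    ext x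
    simp only [Sle, mem_image, mem_iUnion, mem_Iic, mem_univ, exists_const]
    constructor
    · intro hx
      exact ⟨E.symm ⟨x, hx⟩, E.symm ⟨x, hx⟩, le_rfl, by simp⟩
    · rintro ⟨η, ζ, hζ, rfl⟩
      exact (E ζ).2
  have hN : ∀ ξ, Nice (o.gen (T ∪ Sle ξ)) := fun ξ => ih _ (hSle ξ) _ rfl
  choose 𝒟 h1 h2 h3 using hN
  have hTn : Nice (o.gen T) := by
    refine ⟨{o.gen T}, ?_, pairwiseDisjoint_singleton _ _, sUnion_singleton _⟩
    rintro D rfl
    exact ⟨o.isOpen_gen hT Subset.rfl,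
      (o.srsc_gen hT2).isLindelof (o.isClosed_gen hT Subset.rfl) hP hC⟩
  have hle_lt : ∀ ξ η, ξ < η → o.gen (T ∪ Sle ξ) ⊆ o.gen (T ∪ Slt η) := by
    intro ξ η h
    refine o.gen_mono (union_subset_union_right _ ?_)
    rw [hSltSle]
    exact subset_biUnion_of_mem (u := fun η => Sle η) (show ξ ∈ Iio η from h)
  have hT_lt : ∀ ξ, o.gen T ⊆ o.gen (T ∪ Slt ξ) := fun ξ => o.gen_mono subset_union_left
  refine ⟨insert (o.gen T) {D' | ∃ ξ, ∃ D ∈ 𝒟 ξ, D' = D \ o.gen (T ∪ Slt ξ)}, ?_, ?_, ?_⟩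
  · rintro D' (rfl | ⟨ξ, D, hD, rfl⟩)
    · exact ⟨o.isOpen_gen hT Subset.rfl,
        (o.srsc_gen hT2).isLindelof (o.isClosed_gen hT Subset.rfl) hP hC⟩
    · refine ⟨(h1 ξ D hD).1.sdiff (o.isClosed_gen hT subset_union_left), ?_⟩
      exact (h1 ξ D hD).2.inter_right (o.isOpen_gen hT subset_union_left).isClosed_compl
  · -- disjointness
    have hsub : ∀ ξ, ∀ D ∈ 𝒟 ξ, D ⊆ o.gen (T ∪ Sle ξ) := fun ξ D hD => by
      rw [← h3 ξ]; exact subset_sUnion_of_mem hD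
    have key : ∀ ξ η, ξ < η → ∀ D ∈ 𝒟 ξ, ∀ D' ∈ 𝒟 η,
        Disjoint (D \ o.gen (T ∪ Slt ξ)) (D' \ o.gen (T ∪ Slt η)) := by
      intro ξ η h D hD D' _
      rw [disjoint_left]
      rintro x hx1 hx2
      exact hx2.2 (hle_lt ξ η h (hsub ξ D hD hx1.1))
    have keyT : ∀ ξ, ∀ D ∈ 𝒟 ξ, Disjoint (o.gen T) (D \ o.gen (T ∪ Slt ξ)) := by
      intro ξ D _
      rw [disjoint_left]
      intro x hx1 hx2
      exact hx2.2 (hT_lt ξ hx1)
    rintro A hA B hB hAB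
    simp only [Function.onFun, id]
    rcases hA with rfl | ⟨ξ, D, hD, rfl⟩
    · rcases hB with rfl | ⟨η, D', hD', rfl⟩
      · exact absurd rfl hAB
      · exact keyT η D' hD'
    · rcases hB with rfl | ⟨η, D', hD', rfl⟩
      · exact (keyT ξ D hD).symm
      · rcases lt_trichotomy ξ η with h | h | h
        · exact key ξ η h D hD D' hD'
        · subst h
          have hne : D ≠ D' := fun h' => hAB (by rw [h'])
          exact (h2 ξ hD hD' hne).mono sdiff_subset sdiff_subset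
        · exact (key η ξ h D' hD' D hD).symm
  · -- covering
    apply Subset.antisymm
    · refine sUnion_subset ?_
      rintro D' (rfl | ⟨ξ, D, hD, rfl⟩)
      · exact o.gen_mono subset_union_left
      · refine sdiff_subset.trans ?_
        refine Subset.trans (subset_sUnion_of_mem hD) ?_
        rw [h3 ξ]
        refine o.gen_mono (union_subset_union_right _ ?_)
        rintro _ ⟨η, -, rfl⟩
        exact (E η).2
    · intro x hx
      rw [hSall] at hx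
      have hx' := o.gen_chain hmono univ hx
      by_cases hxT : x ∈ o.gen T
      · exact ⟨_, Or.inl rfl, hxT⟩
      have hex : ∃ ξ, x ∈ o.gen (T ∪ Sle ξ) := by
        rcases hx' with hx' | hx'
        · exact absurd hx' hxT
        · simp only [mem_iUnion] at hx'
          obtain ⟨ξ, -, h⟩ := hx'
          exact ⟨ξ, h⟩
      obtain ⟨ξ, hξ, hmin⟩ := (wellFounded_lt (α := κ.ord.ToType)).has_min
        {ξ | x ∈ o.gen (T ∪ Sle ξ)} hex
      have hnot : x ∉ o.gen (T ∪ Slt ξ) := by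
        intro h
        rw [hSltSle] at h
        rcases o.gen_chain hmono (Iio ξ) h with h' | h'
        · exact hxT h'
        · simp only [mem_iUnion] at h'
          obtain ⟨η, hη, h''⟩ := h'
          exact hmin η h'' hη
      have hξ' : x ∈ ⋃₀ 𝒟 ξ := by rw [h3 ξ]; exact hξ
      obtain ⟨D, hD, hxD⟩ := hξ'
      exact ⟨_, Or.inr ⟨ξ, D, hD, rfl⟩, hxD, hnot⟩

end Ops

end Pool.Agent.MP_32aa7d_gt
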