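import Mathlib

/-!
Definitions for problem `MP_32aa7d_gt`: rectifiable spaces, k-networks, point-countable families.
-/

namespace Pool.Agent.MP_32aa7d_gt

universe u

/-- A topological space `G` is *rectifiable* if there are a point `e : G` and a homeomorphism
`φ : G × G ≃ₜ G × G` preserving the first coordinate and sending each `(x, x)` to `(x, e)`. -/
def Rectifiable (G : Type u) [TopologicalSpace G] : Prop :=
  ∃ (e : G) (φ : (G × G) ≃ₜ (G × G)),
    (∀ x y : G, (φ (x, y)).1 = x) ∧ ∀ x : G, φ (x, x) = (x, e)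

/-- A family `P` of subsets of `X` is a *k-network* if for every compact `K` and open `U ⊇ K`
there is a finite `F ⊆ P` with `K ⊆ ⋃ F ⊆ U`. -/
def IsKNetwork {X : Type u} [TopologicalSpace X] (P : Set (Set X)) : Prop :=
  ∀ K U : Set X, IsCompact K → IsOpen U → K ⊆ U →
    ∃ F : Set (Set X), F.Finite ∧ F ⊆ P ∧ K ⊆ ⋃₀ F ∧ ⋃₀ F ⊆ U

/-- A family `P` of subsets of `X` is *point-countable* if each point lies in at most countably
many members of `P`. -/
def PointCountable {X : Type u} (P : Set (Set X)) : Prop :=
  ∀ x : X, {A | A ∈ P ∧ x ∈ A}.Countable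

end Pool.Agent.MP_32aa7d_gt
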