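import Pool.Agent.Lib.MP_32aa7d_gt.AlphaFour

/-!
The case in which the diagonal property fails: relatively sequentially compact members of a
point-countable k-network still capture convergent sequences.
-/

namespace Pool.Agent.MP_32aa7d_gt

open Set Filter Topology

universe u

variable {G : Type u} [TopologicalSpace G]

/-- relatively sequentially compact sets -/
def RSC (A : Set G) : Prop :=
  ∀ z : ℕ → G, (∀ k, z k ∈ A) →
    ∃ (φ : ℕ → ℕ) (a : G), StrictMono φ ∧ Tendsto (z ∘ φ) atTop (𝓝 a)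

/-- A fan at `e`: countably many sequences converging to `e` without convergent diagonal
sequences. -/
def IsFan (e : G) (x : ℕ → ℕ → G) : Prop :=
  (∀ n, Tendsto (x n) atTop (𝓝 e)) ∧
    ∀ n m : ℕ → ℕ, StrictMono n → ∀ a, ¬ Tendsto (fun k => x (n k) (m k)) atTop (𝓝 a)

theorem exists_noConv_of_not_rsc {A : Set G} (h : ¬ RSC A) :
    ∃ d : ℕ → G, (∀ k, d k ∈ A) ∧ NoConv d := by
  unfold RSC at h
  push Not at h
  obtain ⟨z, hz1, hz2⟩ := h
  refine ⟨z, hz1, ?_⟩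
  intro i hi a ha
  obtain ⟨φ, hφ, hφ2⟩ := exists_subseq_strictMono_of_injective hi
  exact hz2 (i ∘ φ) a hφ2 (ha.comp hφ.tendsto_atTop)

/-- a k-network covers almost all terms of a convergent sequence inside a given neighbourhood -/
theorem IsKNetwork.exists_cover {P : Set (Set G)} (hP : IsKNetwork P) {z : ℕ → G} {a : G}
    {U : Set G} (hz : Tendsto z atTop (𝓝 a)) (hU : IsOpen U) (ha : a ∈ U) :
    ∃ F : Set (Set G), F.Finite ∧ F ⊆ P ∧ ⋃₀ F ⊆ U ∧ ∀ᶠ k in atTop, z k ∈ ⋃₀ F := by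
  obtain ⟨N, hN⟩ := eventually_atTop.1 (hz (hU.mem_nhds ha))
  have h1 : Tendsto (fun k => z (k + N)) atTop (𝓝 a) := (tendsto_add_atTop_iff_nat N).2 hz
  have h2 : IsCompact (insert a (range fun k => z (k + N))) := h1.isCompact_insert_range
  obtain ⟨F, hF1, hF2, hF3, hF4⟩ := hP _ U h2 hU (by
    rintro y (rfl | ⟨k, rfl⟩)
    · exact ha
    · exact hN _ (Nat.le_add_left _ _))
  refine ⟨F, hF1, hF2, hF4, ?_⟩
  filter_upwards [eventually_ge_atTop N] with k hk
  refine hF3 (Or.inr ⟨k - N, ?_⟩)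
  simp only [Nat.sub_add_cancel hk]

theorem IsKNetwork.captures {P : Set (Set G)} (hP : IsKNetwork P) : Captures P := by
  intro z a U hz hU ha
  obtain ⟨F, hF1, hF2, hF3, hF4⟩ := hP.exists_cover hz hU ha
  by_contra hcon
  push Not at hcon
  have h1 : ∀ᶠ k in atTop, ∀ A ∈ F, z k ∉ A := by
    rw [Set.Finite.eventually_all hF1]
    intro A hA
    have := hcon A (hF2 hA) ((subset_sUnion_of_mem hA).trans hF3)
    exact this
  obtain ⟨k, ⟨A, hA, hk⟩, hk2⟩ := (hF4.and h1).exists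
  exact hk2 A hA hk

theorem exists_fan [RegularSpace G] [T2Space G] {P : Set (Set G)} (hP : PointCountable P)
    (hC : Captures P) {e : G} (h4 : ¬ AlphaFour e) : ∃ x : ℕ → ℕ → G, IsFan e x := by
  unfold AlphaFour at h4
  push Not at h4
  obtain ⟨x, hx1, hx2⟩ := h4
  have hM : (range fun p : ℕ × ℕ => x p.1 p.2).Countable := countable_range _
  obtain ⟨A, hA⟩ := hP.exists_enum hM
  have h1 : ∀ n, ∃ t, ∀ m, t ≤ m → ∀ k ≤ n, e ∉ closure (A k) → x n m ∉ A k := by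
    intro n
    have h2 : ∀ᶠ j in atTop, ∀ k ∈ Finset.range (n + 1), e ∉ closure (A k) → x n j ∉ A k := by
      rw [Finset.eventually_all]
      intro k _
      by_cases hk : e ∈ closure (A k)
      · exact Eventually.of_forall fun j h => absurd hk h
      · have h3 : (closure (A k))ᶜ ∈ 𝓝 e := isClosed_closure.isOpen_compl.mem_nhds hk
        filter_upwards [hx1 n h3] with j hj _ hj2
        exact hj (subset_closure hj2)
    obtain ⟨J, hJ⟩ := eventually_atTop.1 h2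
    exact ⟨J, fun j hj k hk => hJ j hj k (Finset.mem_range.2 (Nat.lt_succ_of_le hk))⟩
  choose t ht using h1
  refine ⟨fun n m => x n (m + t n), fun n => (tendsto_add_atTop_iff_nat (t n)).2 (hx1 n), ?_⟩
  intro n m hn a ha
  by_cases hae : a = e
  · subst hae
    exact hx2 n (fun k => m k + t (n k)) hn ha
  · have h2 : ({e} : Set G)ᶜ ∈ 𝓝 a := isClosed_singleton.isOpen_compl.mem_nhds hae
    obtain ⟨U, hU1, hU2⟩ := (hasBasis_nhds_closure a).mem_iff.1 h2
    obtain ⟨B, hB, hBU, hf⟩ := hC _ a (interior U) ha isOpen_interior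
      (mem_interior_iff_mem_nhds.2 hU1)
    have hBM : (B ∩ range fun p : ℕ × ℕ => x p.1 p.2).Nonempty := by
      obtain ⟨k, hk⟩ := hf.exists
      exact ⟨_, hk, (n k, m k + t (n k)), rfl⟩
    obtain ⟨i, rfl⟩ := hA B hB hBM
    have h3 : ∀ᶠ k in atTop, i ≤ n k := hn.tendsto_atTop.eventually_ge_atTop i
    obtain ⟨k, hk1, hk2⟩ := (hf.and_eventually h3).exists
    refine ht (n k) (m k + t (n k)) (Nat.le_add_left _ _) i hk2 ?_ hk1
    intro hcl
    have : e ∈ closure U := closure_mono (hBU.trans interior_subset) hcl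
    exact hU2 this rfl

namespace Ops

variable (o : Ops G)

include o in
theorem rsc_captures [T2Space G] [SequentialSpace G] {P : Set (Set G)} (hP : PointCountable P)
    (hK : IsKNetwork P) (hinter : ∀ A ∈ P, ∀ B ∈ P, A ∩ B ∈ P) {x : ℕ → ℕ → G}
    (hx : IsFan o.e x) : Captures {A | A ∈ P ∧ RSC A} := by
  have hreg : RegularSpace G := o.regularSpace
  intro z a U hz hU ha
  by_contra hcon
  push Not at hcon
  -- the ultrafilter
  let 𝒱 : Ultrafilter ℕ := hyperfilter ℕ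
  have h𝒱 : (𝒱 : Filter ℕ) ≤ atTop := Nat.hyperfilter_le_atTop
  let 𝒜 : Set (Set G) := {A | A ∈ P ∧ A ⊆ U ∧ {k | z k ∈ A} ∈ 𝒱}
  have h𝒜c : 𝒜.Countable := by
    refine (hP.countable_meeting (countable_range z)).mono ?_
    rintro A ⟨h1, -, h3⟩
    obtain ⟨k, hk⟩ := Ultrafilter.nonempty_of_mem h3
    exact ⟨h1, z k, hk, k, rfl⟩
  have h𝒜i : ∀ A ∈ 𝒜, ∀ B ∈ 𝒜, A ∩ B ∈ 𝒜 := by
    rintro A ⟨h1, h2, h3⟩ B ⟨h4, h5, h6⟩
    exact ⟨hinter A h1 B h4, inter_subset_left.trans h2, inter_mem h3 h6⟩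
  have h𝒜V : ∀ V : Set G, IsOpen V → a ∈ V → ∃ A ∈ 𝒜, A ⊆ V := by
    intro V hV haV
    obtain ⟨F, hF1, hF2, hF3, hF4⟩ := hK.exists_cover hz (hU.inter hV) ⟨ha, haV⟩
    have h1 : (⋃ A ∈ F, {k | z k ∈ A}) ∈ 𝒱 := by
      have h2 := h𝒱 hF4
      refine mem_of_superset h2 ?_
      rintro k ⟨A, hA, hk⟩
      exact mem_biUnion hA hk
    obtain ⟨A, hA, hA2⟩ := (Ultrafilter.finite_biUnion_mem_iff hF1).1 h1
    have hAsub : A ⊆ U ∩ V := (subset_sUnion_of_mem hA).trans hF3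
    exact ⟨A, ⟨hF2 hA, hAsub.trans inter_subset_left, hA2⟩, hAsub.trans inter_subset_right⟩
  have h𝒜n : 𝒜.Nonempty := by
    obtain ⟨A, hA, -⟩ := h𝒜V univ isOpen_univ trivial
    exact ⟨A, hA⟩
  obtain ⟨A, hA⟩ := h𝒜c.exists_eq_range h𝒜n
  have hAmem : ∀ i, A i ∈ 𝒜 := fun i => by rw [hA]; exact ⟨i, rfl⟩
  let Q : ℕ → Set G := fun n => Nat.rec (A 0) (fun n Qn => Qn ∩ A (n + 1)) n
  have hQs : ∀ n, Q (n + 1) = Q n ∩ A (n + 1) := fun n => rfl
  have hQmem : ∀ n, Q n ∈ 𝒜 := by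
    intro n
    induction n with
    | zero => exact hAmem 0
    | succ n ih => rw [hQs]; exact h𝒜i _ ih _ (hAmem _)
  have hQanti : Antitone Q := antitone_nat_of_succ_le fun n => by
    rw [hQs]; exact inter_subset_left
  have hQA : ∀ n, Q n ⊆ A n := by
    intro n
    cases n with
    | zero => exact Subset.rfl
    | succ n => rw [hQs]; exact inter_subset_right
  have hQV : ∀ V : Set G, IsOpen V → a ∈ V → ∃ N, ∀ n, N ≤ n → Q n ⊆ V := by
    intro V hV haV
    obtain ⟨B, hB, hBV⟩ := h𝒜V V hV haV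
    rw [hA] at hB
    obtain ⟨i, rfl⟩ := hB
    exact ⟨i, fun n hn => (hQanti hn).trans ((hQA i).trans hBV)⟩
  have hQrsc : ∀ n, ∃ d : ℕ → G, (∀ k, d k ∈ Q n) ∧ NoConv d := by
    intro n
    apply exists_noConv_of_not_rsc
    intro hr
    obtain ⟨h1, h2, h3⟩ := hQmem n
    have h4 := hcon (Q n) ⟨h1, hr⟩ h2
    have h5 : ∀ᶠ k in (𝒱 : Filter ℕ), z k ∉ Q n := h𝒱 h4
    have h6 : ∀ᶠ k in (𝒱 : Filter ℕ), z k ∈ Q n := h3
    obtain ⟨k, hk1, hk2⟩ := (h5.and h6).exists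
    exact hk1 hk2
  choose d hd1 hd2 using hQrsc
  have hexp : ∀ n, ∃ J : ℕ → ℕ, ∀ j : ℕ → ℕ, (∀ m, J m ≤ j m) →
      NoConv (fun m => o.p (d n m) (x n (j m))) := by
    intro n
    refine expansion hP hK.captures (hd2 n) (fun m j => o.p (d n m) (x n j)) ?_ id
      Function.injective_id
    intro m
    have := o.tendsto_p (tendsto_const_nhds (x := d n m) (f := atTop (α := ℕ))) (hx.1 n)
    rwa [o.xe] at this
  choose J hJ using hexp
  let b : ℕ → ℕ → G := fun n m => o.p (d n m) (x n (max (J n m) m))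
  have hbn : ∀ n, NoConv (b n) := fun n => hJ n (fun m => max (J n m) m) fun m => le_max_left _ _
  have hda : ∀ (n m : ℕ → ℕ), StrictMono n → Tendsto (fun k => d (n k) (m k)) atTop (𝓝 a) := by
    intro n m hn
    rw [tendsto_nhds]
    intro V hV haV
    obtain ⟨N, hN⟩ := hQV V hV haV
    filter_upwards [hn.tendsto_atTop.eventually_ge_atTop N] with k hk
    exact hN _ hk (hd1 _ _)
  have hb : NoConv (fun p : ℕ × ℕ => b p.1 p.2) := by
    refine NoConv.prod ?_ hbn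
    intro i j hi c hc
    obtain ⟨φ, hφ, hφ2⟩ := exists_subseq_strictMono_of_injective hi
    have h1 : Tendsto (fun k => b (i (φ k)) (j (φ k))) atTop (𝓝 c) := hc.comp hφ.tendsto_atTop
    have h2 := hda (i ∘ φ) (j ∘ φ) hφ2
    have h3 := o.tendsto_q h2 h1
    simp only [b, Function.comp, o.qp] at h3
    exact hx.2 (i ∘ φ) (fun k => max (J (i (φ k)) (j (φ k))) (j (φ k))) hφ2 _ h3
  have hcl : IsClosed ((range fun p : ℕ × ℕ => b p.1 p.2) \ {a}) := hb.isClosed sdiff_subset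
  have hmem : a ∈ closure ((range fun p : ℕ × ℕ => b p.1 p.2) \ {a}) := by
    rw [mem_closure_iff_nhds]
    intro W hW
    have h : Tendsto (fun z : G × G => o.p z.1 z.2) (𝓝 (a, o.e)) (𝓝 a) := by
      have := o.hp.tendsto (a, o.e)
      simp only [o.xe] at this
      exact this
    have h2 := h hW
    rw [mem_map, nhds_prod_eq, mem_prod_iff] at h2
    obtain ⟨V, hV, O, hO, hVO⟩ := h2
    obtain ⟨N, hN⟩ := hQV (interior V) isOpen_interior (mem_interior_iff_mem_nhds.2 hV)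
    have h3 : ∀ᶠ j in atTop, x N j ∈ O := hx.1 N hO
    obtain ⟨J0, hJ0⟩ := eventually_atTop.1 h3
    have h4 : ∀ᶠ m in atTop, b N m ≠ a :=
      not_frequently.1 ((hbn N).not_frequently_eq Function.injective_id a)
    obtain ⟨m, hm1, hm2⟩ := (h4.and (eventually_ge_atTop J0)).exists
    refine ⟨b N m, ?_, ⟨(N, m), rfl⟩, hm1⟩
    have h5 : (d N m, x N (max (J N m) m)) ∈ V ×ˢ O :=
      ⟨interior_subset (hN N le_rfl (hd1 N m)), hJ0 _ (hm2.trans (le_max_right _ _))⟩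
    exact hVO h5
  rw [hcl.closure_eq] at hmem
  exact hmem.2 rfl

end Ops

end Pool.Agent.MP_32aa7d_gt
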