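import Pool.Agent.Lib.MP_32aa7d_gt.Basic

/-!
Sequences, families capturing convergent sequences, closed discrete families, and the
expansion lemma.
-/

namespace Pool.Agent.MP_32aa7d_gt

open Set Filter Topology

universe u

variable {G : Type u} [TopologicalSpace G]

/-- `Q` captures convergent sequences: for each `z k → a ∈ U` some member of `Q` inside `U`
contains infinitely many terms. -/
def Captures (Q : Set (Set G)) : Prop :=
  ∀ (z : ℕ → G) (a : G) (U : Set G), Tendsto z atTop (𝓝 a) → IsOpen U → a ∈ U →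
    ∃ A ∈ Q, A ⊆ U ∧ ∃ᶠ k in atTop, z k ∈ A

/-- No injective sequence of indices gives a convergent sequence. -/
def NoConv {I : Type*} (b : I → G) : Prop :=
  ∀ i : ℕ → I, Function.Injective i → ∀ a, ¬ Tendsto (fun k => b (i k)) atTop (𝓝 a)

theorem exists_subseq_const_or_injective {I : Type*} (u : ℕ → I) :
    ∃ φ : ℕ → ℕ, StrictMono φ ∧ ((∀ n, u (φ n) = u (φ 0)) ∨ Function.Injective (fun n => u (φ n))) := by
  obtain ⟨g, hg | hg⟩ := exists_increasing_or_nonincreasing_subseq (· = ·) u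
  · refine ⟨g, g.strictMono, Or.inl ?_⟩
    intro n
    rcases Nat.eq_zero_or_pos n with rfl | hn
    · rfl
    · exact (hg 0 n hn).symm
  · refine ⟨g, g.strictMono, Or.inr ?_⟩
    intro m n hmn
    rcases lt_trichotomy m n with h | h | h
    · exact absurd hmn (hg m n h)
    · exact h
    · exact absurd hmn.symm (hg n m h)

theorem exists_subseq_strictMono_of_injective {u : ℕ → ℕ} (hu : Function.Injective u) :
    ∃ φ : ℕ → ℕ, StrictMono φ ∧ StrictMono (u ∘ φ) :=
  strictMono_subseq_of_tendsto_atTop hu.nat_tendsto_atTop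

theorem NoConv.isSeqClosed [T2Space G] {I : Type*} {b : I → G} (hb : NoConv b) {S : Set G}
    (hS : S ⊆ range b) : IsSeqClosed S := by
  intro y a hy hya
  have h1 : ∀ n, ∃ i, b i = y n := fun n => hS (hy n)
  choose i hi using h1
  obtain ⟨φ, hφ, h | h⟩ := exists_subseq_const_or_injective i
  · have h2 : Tendsto (fun n => y (φ n)) atTop (𝓝 a) := hya.comp hφ.tendsto_atTop
    have h3 : (fun n => y (φ n)) = fun _ => y (φ 0) := by
      funext n
      rw [← hi (φ n), h n, hi]
    rw [h3] at h2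
    have := tendsto_nhds_unique h2 tendsto_const_nhds
    rw [this]
    exact hy _
  · exfalso
    refine hb _ h a ?_
    have h2 : Tendsto (fun n => y (φ n)) atTop (𝓝 a) := hya.comp hφ.tendsto_atTop
    simpa only [hi] using h2

theorem NoConv.isClosed [T2Space G] [SequentialSpace G] {I : Type*} {b : I → G} (hb : NoConv b)
    {S : Set G} (hS : S ⊆ range b) : IsClosed S :=
  (hb.isSeqClosed hS).isClosed

theorem NoConv.not_frequently_eq {I : Type*} {b : I → G} (hb : NoConv b) {i : ℕ → I}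
    (hi : Function.Injective i) (a : G) : ¬ ∃ᶠ n in atTop, b (i n) = a := by
  intro h
  obtain ⟨φ, hφ, h2⟩ := extraction_of_frequently_atTop h
  refine hb (i ∘ φ) (hi.comp hφ.injective) a ?_
  have : (fun k => b ((i ∘ φ) k)) = fun _ => a := by
    funext k
    exact h2 k
  rw [this]
  exact tendsto_const_nhds

theorem NoConv.prod {I J : Type*} {b : I → J → G}
    (h1 : ∀ (i : ℕ → I) (j : ℕ → J), Function.Injective i →
      ∀ a, ¬ Tendsto (fun k => b (i k) (j k)) atTop (𝓝 a))
    (h2 : ∀ i, NoConv (b i)) : NoConv (fun p : I × J => b p.1 p.2) := by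
  intro u hu a ha
  obtain ⟨φ, hφ, h | h⟩ := exists_subseq_const_or_injective (fun n => (u n).1)
  · refine h2 (u (φ 0)).1 (fun n => (u (φ n)).2) ?_ a ?_
    · intro m n hmn
      have : u (φ m) = u (φ n) := Prod.ext ((h m).trans (h n).symm) hmn
      exact hφ.injective (hu this)
    · have h3 : Tendsto (fun n => b (u (φ n)).1 (u (φ n)).2) atTop (𝓝 a) :=
        ha.comp hφ.tendsto_atTop
      have h4 : (fun n => b (u (φ n)).1 (u (φ n)).2) = fun n => b (u (φ 0)).1 (u (φ n)).2 := by
        funext n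
        rw [h n]
      rwa [h4] at h3
  · exact h1 _ (fun n => (u (φ n)).2) h a (ha.comp hφ.tendsto_atTop)

omit [TopologicalSpace G] in
/-- the members of a point-countable family meeting a countable set are countably many -/
theorem PointCountable.countable_meeting {P : Set (Set G)} (hP : PointCountable P) {M : Set G}
    (hM : M.Countable) : {A | A ∈ P ∧ (A ∩ M).Nonempty}.Countable := by
  have : {A | A ∈ P ∧ (A ∩ M).Nonempty} ⊆ ⋃ x ∈ M, {A | A ∈ P ∧ x ∈ A} := by
    rintro A ⟨hA, x, hx1, hx2⟩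
    simp only [mem_iUnion]
    exact ⟨x, hx2, hA, hx1⟩
  exact (hM.biUnion fun x _ => hP x).mono this

omit [TopologicalSpace G] in
theorem PointCountable.mono {P Q : Set (Set G)} (hP : PointCountable P) (h : Q ⊆ P) :
    PointCountable Q := by
  intro x
  refine (hP x).mono ?_
  rintro A ⟨hA1, hA2⟩
  exact ⟨h hA1, hA2⟩

omit [TopologicalSpace G] in
/-- enumeration of the members meeting a countable set -/
theorem PointCountable.exists_enum {P : Set (Set G)} (hP : PointCountable P) {M : Set G}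
    (hM : M.Countable) : ∃ A : ℕ → Set G, ∀ B ∈ P, (B ∩ M).Nonempty → ∃ k, A k = B := by
  have hc := hP.countable_meeting hM
  rcases eq_empty_or_nonempty {A | A ∈ P ∧ (A ∩ M).Nonempty} with h | h
  · refine ⟨fun _ => ∅, fun B hB hBM => ?_⟩
    have : B ∈ {A | A ∈ P ∧ (A ∩ M).Nonempty} := ⟨hB, hBM⟩
    rw [h] at this
    exact absurd this (notMem_empty _)
  · obtain ⟨A, hA⟩ := hc.exists_eq_range h
    refine ⟨A, fun B hB hBM => ?_⟩
    have : B ∈ {A | A ∈ P ∧ (A ∩ M).Nonempty} := ⟨hB, hBM⟩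
    rw [hA] at this
    exact this

/-- The expansion lemma. -/
theorem expansion [T2Space G] [SequentialSpace G] [RegularSpace G] {Q : Set (Set G)}
    (hQ : PointCountable Q) (hC : Captures Q) {I : Type*} [Countable I] {x : I → G}
    (hx : NoConv x) (b : I → ℕ → G) (hb : ∀ i, Tendsto (b i) atTop (𝓝 (x i)))
    (r : I → ℕ) (hr : Function.Injective r) :
    ∃ J : I → ℕ, ∀ j : I → ℕ, (∀ i, J i ≤ j i) → NoConv (fun i => b i (j i)) := by
  have hM : (range fun p : I × ℕ => b p.1 p.2).Countable := countable_range _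
  obtain ⟨A, hA⟩ := hQ.exists_enum hM
  have h1 : ∀ i, ∃ J, ∀ j, J ≤ j → ∀ k ≤ r i, x i ∉ closure (A k) → b i j ∉ A k := by
    intro i
    have h2 : ∀ᶠ j in atTop, ∀ k ∈ Finset.range (r i + 1), x i ∉ closure (A k) → b i j ∉ A k := by
      rw [Finset.eventually_all]
      intro k _
      by_cases hk : x i ∈ closure (A k)
      · exact Eventually.of_forall fun j h => absurd hk h
      · have h3 : (closure (A k))ᶜ ∈ 𝓝 (x i) := isClosed_closure.isOpen_compl.mem_nhds hk
        filter_upwards [hb i h3] with j hj _ hj2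
        exact hj (subset_closure hj2)
    obtain ⟨J, hJ⟩ := eventually_atTop.1 h2
    exact ⟨J, fun j hj k hk => hJ j hj k (Finset.mem_range.2 (Nat.lt_succ_of_le hk))⟩
  choose J hJ using h1
  refine ⟨J, fun j hj i hi a ha => ?_⟩
  have hX : IsClosed (range x \ {a}) := hx.isClosed sdiff_subset
  have haX : a ∈ (range x \ {a})ᶜ := fun h => h.2 rfl
  obtain ⟨U, ⟨haU, hUo⟩, hU⟩ :=
    (hasBasis_nhds_closure a).mem_iff.1 (hX.isOpen_compl.mem_nhds haX) |>.imp fun U h =>
      (⟨⟨h.1, trivial⟩, h.2⟩ : (U ∈ 𝓝 a ∧ True) ∧ closure U ⊆ (range x \ {a})ᶜ)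
  obtain ⟨B, hB, hBU, hf⟩ := hC _ a (interior U) ha isOpen_interior (mem_interior_iff_mem_nhds.2 haU)
  have hBM : (B ∩ range fun p : I × ℕ => b p.1 p.2).Nonempty := by
    obtain ⟨k, hk⟩ := hf.exists
    exact ⟨_, hk, (i k, j (i k)), rfl⟩
  obtain ⟨k, rfl⟩ := hA B hB hBM
  have h3 : ∀ᶠ n in atTop, k ≤ r (i n) :=
    (hr.comp hi).nat_tendsto_atTop.eventually_ge_atTop k
  have h4 : ∀ᶠ n in atTop, x (i n) ≠ a := not_frequently.1 (hx.not_frequently_eq hi a)
  obtain ⟨n, hn1, hn2, hn3⟩ := (hf.and_eventually (h3.and h4)).exists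
  refine hJ (i n) (j (i n)) (hj _) k hn2 ?_ hn1
  intro hcl
  have : x (i n) ∈ closure U := closure_mono (hBU.trans interior_subset) hcl
  exact hU this ⟨⟨i n, rfl⟩, hn3⟩

end Pool.Agent.MP_32aa7d_gt
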